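import Pool.Agent.Run7.h913.QG.Quad
import Pool.Agent.Run7.h528.NR.Char

/-!
Quartic growth of the degrees for abelian groups of zero entropy, if the numerical dimension is at
least `n - 2`.
-/

set_option autoImplicit false
set_option linter.unusedSectionVars false

open Multiset Filter Topology

namespace Run7.h913.QG

open Pool.Agent.N110 Pool.Agent.N110.RK Run7.h528.NR

section

variable {G : Type} [Group G] {J J2 J3 : Multiset G → ℝ}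

/-- forms of degree three -/
theorem three_sub (hJ : Jnt 1 J3 J2) (h2inv : ∀ (u : G) s, J2 (s.map (fun v => u * v)) = J2 s)
    (h3inv : ∀ (u : G) s, J3 (s.map (fun v => u * v)) = J3 s) (h3 : ∀ s, 0 ≤ J3 s)
    (h21 : J2 (1 ::ₘ 1 ::ₘ 0) = 1)
    (h2sub : ∀ g h, J2 ((g * h) ::ₘ 1 ::ₘ 0) ≤ 2 * (J2 (g ::ₘ 1 ::ₘ 0) + J2 (h ::ₘ 1 ::ₘ 0)))
    (h2pos : ∀ g, 0 < J2 (g ::ₘ 1 ::ₘ 0)) (g h : G)
    (hle : J2 (h ::ₘ 1 ::ₘ 0) ≤ J2 (g ::ₘ 1 ::ₘ 0)) :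
    J3 ((g * h) ::ₘ 1 ::ₘ 1 ::ₘ 0) ≤ 2 ^ 4 * max (max (J3 (g ::ₘ 1 ::ₘ 1 ::ₘ 0))
      (J3 (g⁻¹ ::ₘ 1 ::ₘ 1 ::ₘ 0))) (J3 (h ::ₘ 1 ::ₘ 1 ::ₘ 0)) := by
  have hA := hJ (1 ::ₘ 0) rfl g (g * h) 1
  have hB := hJ (g ::ₘ 0) rfl g 1 (g * h)
  have e1 : J2 (g ::ₘ g ::ₘ 0) = 1 := by
    have := h2inv g (1 ::ₘ 1 ::ₘ 0)
    rw [map_cons, map_cons, map_zero, mul_one, h21] at this
    exact this
  have e2 : J3 (1 ::ₘ (g * h) ::ₘ g ::ₘ 0) = J3 (g ::ₘ (g * h) ::ₘ 1 ::ₘ 0) := by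
    rw [cons_swap 1 (g * h), cons_swap 1 g, cons_swap (g * h) g]
  have e3 : J2 (1 ::ₘ g ::ₘ 0) = J2 (g ::ₘ 1 ::ₘ 0) := by rw [cons_swap]
  have e4 : J3 (g ::ₘ (g * h) ::ₘ g ::ₘ 0) = J3 (h ::ₘ 1 ::ₘ 1 ::ₘ 0) := by
    have := h3inv g (1 ::ₘ h ::ₘ 1 ::ₘ 0)
    rw [map_cons, map_cons, map_cons, map_zero, mul_one] at this
    rw [this, cons_swap 1 h]
  have e5 : J2 ((g * h) ::ₘ g ::ₘ 0) = J2 (h ::ₘ 1 ::ₘ 0) := by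
    have := h2inv g (h ::ₘ 1 ::ₘ 0)
    rw [map_cons, map_cons, map_zero, mul_one] at this
    exact this
  have e6 : J3 (g ::ₘ 1 ::ₘ g ::ₘ 0) = J3 (g⁻¹ ::ₘ 1 ::ₘ 1 ::ₘ 0) := by
    have := h3inv g (1 ::ₘ g⁻¹ ::ₘ 1 ::ₘ 0)
    rw [map_cons, map_cons, map_cons, map_zero, mul_one, mul_inv_cancel] at this
    rw [this, cons_swap 1 g⁻¹]
  rw [e1, one_mul, e2, e3, e4, e5, e6] at hB
  rw [h21, one_mul] at hA
  have hs := h2sub g h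
  obtain ⟨F, hF⟩ : ∃ F, F = J2 (g ::ₘ 1 ::ₘ 0) := ⟨_, rfl⟩
  obtain ⟨F', hF'⟩ : ∃ F', F' = J2 (h ::ₘ 1 ::ₘ 0) := ⟨_, rfl⟩
  obtain ⟨F'', hF''⟩ : ∃ F'', F'' = J2 ((g * h) ::ₘ 1 ::ₘ 0) := ⟨_, rfl⟩
  obtain ⟨A, hAd⟩ : ∃ A, A = J3 (g ::ₘ 1 ::ₘ 1 ::ₘ 0) := ⟨_, rfl⟩
  obtain ⟨A', hAd'⟩ : ∃ A', A' = J3 (g⁻¹ ::ₘ 1 ::ₘ 1 ::ₘ 0) := ⟨_, rfl⟩
  obtain ⟨B, hBd⟩ : ∃ B, B = J3 (h ::ₘ 1 ::ₘ 1 ::ₘ 0) := ⟨_, rfl⟩
  obtain ⟨X, hX⟩ : ∃ X, X = J3 (g ::ₘ (g * h) ::ₘ 1 ::ₘ 0) := ⟨_, rfl⟩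
  obtain ⟨Y, hY⟩ : ∃ Y, Y = J3 ((g * h) ::ₘ 1 ::ₘ 1 ::ₘ 0) := ⟨_, rfl⟩
  have hFp : 0 < F := by rw [hF]; exact h2pos g
  have hF'p : 0 < F' := by rw [hF']; exact h2pos h
  have hA0 : 0 ≤ A := by rw [hAd]; exact h3 _
  have hA'0 : 0 ≤ A' := by rw [hAd']; exact h3 _
  have hB0 : 0 ≤ B := by rw [hBd]; exact h3 _
  rw [← hF, ← hF'', ← hAd, ← hX, ← hY] at hA
  rw [← hF, ← hF', ← hAd', ← hBd, ← hX] at hB
  rw [← hF, ← hF', ← hF''] at hs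
  rw [← hF, ← hF'] at hle
  rw [← hAd, ← hAd', ← hBd, ← hY]
  obtain ⟨Z, hZ⟩ : ∃ Z, Z = max (max A A') B := ⟨_, rfl⟩
  have z1 : A ≤ Z := by rw [hZ]; exact (le_max_left _ _).trans (le_max_left _ _)
  have z2 : A' ≤ Z := by rw [hZ]; exact (le_max_right _ _).trans (le_max_left _ _)
  have z3 : B ≤ Z := by rw [hZ]; exact le_max_right _ _
  rw [← hZ]
  have hZ0 : 0 ≤ Z := hA0.trans z1
  -- the estimate
  have c1 : F * B ≤ F * Z := mul_le_mul_of_nonneg_left z3 hFp.le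
  have c2 : F' * A' ≤ F * Z := mul_le_mul hle z2 hA'0 hFp.le
  have c3 : F'' * A ≤ (4 * F) * Z := by
    refine mul_le_mul ?_ z1 hA0 (by positivity)
    linarith
  have c4 : F * Y ≤ F * (2 ^ 4 * Z) := by
    calc F * Y ≤ 2 * (F'' * A + X) := hA
      _ ≤ F * (2 ^ 4 * Z) := by nlinarith
  exact le_of_mul_le_mul_left c4 hFp

end

section

variable {G : Type} [Group G] {C : G → ℝ} {k : ℕ} {J J2 J3 : Multiset G → ℝ} {χ χ2 χ3 : G → ℝ}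

theorem chi_eq_one (hC : ∀ v, 1 ≤ C v) (h : NF C (k + 1) J χ)
    (hz : ∀ g : G, Sml C 0 (fun l => g ^ l)) (g : G) : χ g = 1 := by
  have h1 := h.chi_zero hC (hz g)
  have h2 := h.chi_pos hC g
  rw [← Real.exp_log h2, h1, Real.exp_zero]

/-- forms of degree two on nilpotent groups of zero entropy -/
theorem core2 [Group.IsNilpotent G] {ι : Type} [Fintype ι] [Nonempty ι] (s : ι → G)
    (hs : Submonoid.closure (Set.range s) = ⊤) (hC : ∀ v, 1 ≤ C v)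
    (hz : ∀ g : G, Sml C 0 (fun l => g ^ l)) (hJ : NF C 2 J χ) (g h : G) :
    J ((g * h) ::ₘ 1 ::ₘ 0) ≤ 2 * (J (g ::ₘ 1 ::ₘ 0) + J (h ::ₘ 1 ::ₘ 0)) := by
  obtain ⟨L, hL, χ', hL'⟩ := leafAG s hs hC (k := 1) hJ
  have hjnt := jointG (k := 0) hJ hL
  have hχ := chi_eq_one (k := 1) hC hJ hz
  have hχ' := chi_eq_one (k := 0) hC hL' hz
  refine two_sub (κ := 1) one_pos hjnt (fun g => ?_) (fun u s => ?_) g h
  · have h1 := hL'.chi_eq g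
    rw [hχ' g, replicate_one] at h1
    exact h1.symm
  · rw [hJ.inv, hχ, one_mul]

end

section

variable {G : Type} [Group G] [Group.IsNilpotent G] {C : G → ℝ} {k : ℕ} {J J2 J3 : Multiset G → ℝ}
  {χ χ2 χ3 : G → ℝ}

/-- forms of degree three on abelian groups of zero entropy -/
theorem core3 (hcomm : ∀ a b : G, a * b = b * a) {ι : Type} [Fintype ι] [Nonempty ι] (s : ι → G)
    (hs : Submonoid.closure (Set.range s) = ⊤) (hC : ∀ v, 1 ≤ C v)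
    (hz : ∀ g : G, Sml C 0 (fun l => g ^ l)) (hJ3 : NF C 3 J3 χ3) (hJ2 : NF C 2 J2 χ2)
    (hjnt : Jnt 1 J3 J2) (g h : G) :
    max (J3 ((g * h) ::ₘ 1 ::ₘ 1 ::ₘ 0)) (J3 ((g * h)⁻¹ ::ₘ 1 ::ₘ 1 ::ₘ 0)) ≤
      2 ^ 4 * max (max (J3 (g ::ₘ 1 ::ₘ 1 ::ₘ 0)) (J3 (g⁻¹ ::ₘ 1 ::ₘ 1 ::ₘ 0)))
        (max (J3 (h ::ₘ 1 ::ₘ 1 ::ₘ 0)) (J3 (h⁻¹ ::ₘ 1 ::ₘ 1 ::ₘ 0))) := by
  have h2i : ∀ (u : G) s, J2 (s.map (fun v => u * v)) = J2 s := fun u s => by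
    rw [hJ2.inv, chi_eq_one (k := 1) hC hJ2 hz, one_mul]
  have h3i : ∀ (u : G) s, J3 (s.map (fun v => u * v)) = J3 s := fun u s => by
    rw [hJ3.inv, chi_eq_one (k := 2) hC hJ3 hz, one_mul]
  have h21 : J2 (1 ::ₘ 1 ::ₘ 0) = 1 := hJ2.norm
  have h2pos : ∀ g, 0 < J2 (g ::ₘ 1 ::ₘ 0) := fun g => hJ2.pos hC _ rfl
  have h2sub := core2 s hs hC hz hJ2
  have h2inv := fun g => two_inv h2i g
  have key : ∀ g h : G, J2 (h ::ₘ 1 ::ₘ 0) ≤ J2 (g ::ₘ 1 ::ₘ 0) →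
      max (J3 ((g * h) ::ₘ 1 ::ₘ 1 ::ₘ 0)) (J3 ((g * h)⁻¹ ::ₘ 1 ::ₘ 1 ::ₘ 0)) ≤
      2 ^ 4 * max (max (J3 (g ::ₘ 1 ::ₘ 1 ::ₘ 0)) (J3 (g⁻¹ ::ₘ 1 ::ₘ 1 ::ₘ 0)))
        (max (J3 (h ::ₘ 1 ::ₘ 1 ::ₘ 0)) (J3 (h⁻¹ ::ₘ 1 ::ₘ 1 ::ₘ 0))) := by
    intro g h hle
    have h1 := three_sub hjnt h2i h3i hJ3.nonneg h21 h2sub h2pos g h hle
    have h2 := three_sub hjnt h2i h3i hJ3.nonneg h21 h2sub h2pos g⁻¹ h⁻¹ (by
      rw [h2inv, h2inv]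
      exact hle)
    rw [← mul_inv_rev, hcomm h g, inv_inv] at h2
    refine max_le (h1.trans (mul_le_mul_of_nonneg_left ?_ (by norm_num)))
      (h2.trans (mul_le_mul_of_nonneg_left ?_ (by norm_num)))
    · exact max_le_max le_rfl (le_max_left _ _)
    · rw [max_comm (J3 (g⁻¹ ::ₘ 1 ::ₘ 1 ::ₘ 0))]
      exact max_le_max le_rfl (le_max_right _ _)
  rcases le_total (J2 (h ::ₘ 1 ::ₘ 0)) (J2 (g ::ₘ 1 ::ₘ 0)) with hle | hle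
  · exact key g h hle
  · have h1 := key h g hle
    rw [hcomm h g, max_comm (max (J3 (h ::ₘ 1 ::ₘ 1 ::ₘ 0)) _)] at h1
    exact h1

end

section

variable {α 𝒜 G : Type} [Preorder 𝒜] [Group G] [Group.IsNilpotent G] {n : ℕ} {t : Multiset α → ℝ} {φ : G → α → α}
  {mul : α → α → α} {H : α} {m : ℕ → ℝ} {M : 𝒜 → ℕ → α} {ν : ℕ} {c ε : ℝ} {𝒰 : Ultrafilter ℕ}

/-- the words, for the forms of degree three -/
theorem words3 (hcomm : ∀ a b : G, a * b = b * a) {ι : Type} [Fintype ι] [Nonempty ι] (s : ι → G)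
    (hs : Submonoid.closure (Set.range s) = ⊤) {C : G → ℝ} (hC : ∀ v, 1 ≤ C v)
    (hz : ∀ g : G, Sml C 0 (fun l => g ^ l)) {J3 J2 : Multiset G → ℝ} {χ3 χ2 : G → ℝ}
    (hJ3 : NF C 3 J3 χ3) (hJ2 : NF C 2 J2 χ2) (hjnt : Jnt 1 J3 J2) :
    ∃ F : ℝ, 0 ≤ F ∧ ∀ w : List G, w ≠ [] → (∀ g ∈ w, g ∈ Set.range s) →
      J3 (w.prod ::ₘ 1 ::ₘ 1 ::ₘ 0) ≤ F * (w.length : ℝ) ^ 4 := by
  classical
  obtain ⟨f, hf⟩ : ∃ f : G → ℝ, ∀ g, f g = max (J3 (g ::ₘ 1 ::ₘ 1 ::ₘ 0))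
      (J3 (g⁻¹ ::ₘ 1 ::ₘ 1 ::ₘ 0)) := ⟨_, fun _ => rfl⟩
  have hsub : ∀ g h, f (g * h) ≤ 2 ^ 4 * max (f g) (f h) := by
    intro g h
    rw [hf, hf, hf]
    exact core3 hcomm s hs hC hz hJ3 hJ2 hjnt g h
  have hf0 : ∀ g, 0 ≤ f g := fun g => by
    rw [hf]
    exact (hJ3.nonneg _).trans (le_max_left _ _)
  obtain ⟨F, hF⟩ : ∃ F : ℝ, F = f 1 + ∑ i, f (s i) := ⟨_, rfl⟩
  have hsum : 0 ≤ ∑ i, f (s i) := Finset.sum_nonneg fun i _ => hf0 _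
  have hF0 : 0 ≤ F := by
    rw [hF]
    have := hf0 1
    linarith
  refine ⟨2 ^ 4 * F, by positivity, fun w hw hwT => ?_⟩
  have h1 := words_le 4 hF0 hsub (T := Set.range s) (by
    rintro _ ⟨i, rfl⟩
    have h2 := Finset.single_le_sum (f := fun i => f (s i)) (fun i _ => hf0 _)
      (Finset.mem_univ i)
    have h3 := hf0 1
    rw [hF]
    beta_reduce at h2
    linarith) (by rw [hF]; linarith) w hwT hw
  refine le_trans ?_ h1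
  rw [hf]
  exact le_max_left _ _

/-- the words, for the forms of degree two -/
theorem words2 {ι : Type} [Fintype ι] [Nonempty ι] (s : ι → G)
    (hs : Submonoid.closure (Set.range s) = ⊤) {C : G → ℝ} (hC : ∀ v, 1 ≤ C v)
    (hz : ∀ g : G, Sml C 0 (fun l => g ^ l)) {J2 : Multiset G → ℝ} {χ2 : G → ℝ}
    (hJ2 : NF C 2 J2 χ2) :
    ∃ F : ℝ, 0 ≤ F ∧ ∀ w : List G, w ≠ [] → (∀ g ∈ w, g ∈ Set.range s) →
      J2 (w.prod ::ₘ 1 ::ₘ 0) ≤ F * (w.length : ℝ) ^ 2 := by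
  classical
  obtain ⟨f, hf⟩ : ∃ f : G → ℝ, ∀ g, f g = J2 (g ::ₘ 1 ::ₘ 0) := ⟨_, fun _ => rfl⟩
  have hsub : ∀ g h, f (g * h) ≤ 2 ^ 2 * max (f g) (f h) := by
    intro g h
    have h1 := core2 s hs hC hz hJ2 g h
    rw [← hf, ← hf, ← hf] at h1
    have h2 := le_max_left (f g) (f h)
    have h3 := le_max_right (f g) (f h)
    linarith
  have hf0 : ∀ g, 0 ≤ f g := fun g => by
    rw [hf]
    exact hJ2.nonneg _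
  obtain ⟨F, hF⟩ : ∃ F : ℝ, F = f 1 + ∑ i, f (s i) := ⟨_, rfl⟩
  have hsum : 0 ≤ ∑ i, f (s i) := Finset.sum_nonneg fun i _ => hf0 _
  have hF0 : 0 ≤ F := by
    rw [hF]
    have := hf0 1
    linarith
  refine ⟨2 ^ 2 * F, by positivity, fun w hw hwT => ?_⟩
  have h1 := words_le 2 hF0 hsub (T := Set.range s) (by
    rintro _ ⟨i, rfl⟩
    have h2 := Finset.single_le_sum (f := fun i => f (s i)) (fun i _ => hf0 _)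
      (Finset.mem_univ i)
    have h3 := hf0 1
    rw [hF]
    beta_reduce at h2
    linarith) (by rw [hF]; linarith) w hwT hw
  rwa [hf] at h1

/-- **Quartic growth.** -/
theorem quart [IsDirected 𝒜 (· ≤ ·)] [Nonempty 𝒜] {d : ℕ}
    (h : GSys (d + 3) t φ mul H m M (d + 1) c ε) (hcomm : ∀ a b : G, a * b = b * a) {ι : Type}
    [Fintype ι] [Nonempty ι] (s : ι → G)
    (hs : Submonoid.closure (Set.range s) = ⊤)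
    (hz : ∀ g : G, Gr 0 (fun l => t (φ (g ^ l) H ::ₘ replicate (d + 2) H))) :
    ∃ C : ℝ, ∀ w : List G, w ≠ [] → (∀ g ∈ w, g ∈ Set.range s) →
      t (φ w.prod H ::ₘ replicate (d + 2) H) ≤ C * (w.length : ℝ) ^ 4 := by
  classical
  obtain ⟨𝒰, h𝒰⟩ : ∃ 𝒰 : Ultrafilter ℕ, (𝒰 : Filter ℕ) ≤ atTop :=
    ⟨Ultrafilter.of atTop, Ultrafilter.of_le atTop⟩
  obtain ⟨J, hJ⟩ : ∃ J : ℕ → Multiset G → ℝ, ∀ j, J j = JG (d + 3) t φ H m M 𝒰 j :=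
    ⟨_, fun _ => rfl⟩
  have hC : ∀ v, 1 ≤ CCG (d + 3) t φ H v := fun v => GSys.CC_one v
  have hz' : ∀ g : G, Sml (CCG (d + 3) t φ H) 0 (fun l => g ^ l) := fun g =>
    h.inv_small (x := fun l => g ^ l) (hz g)
  have n3 := h.J_NF h𝒰 (show d ≤ d + 1 by omega)
  have n2 := h.J_NF h𝒰 (show d + 1 ≤ d + 1 by omega)
  have κ3 := h.J_norm h𝒰 (show d ≤ d + 1 by omega)
  have κ2 := h.J_norm h𝒰 (show d + 1 ≤ d + 1 by omega)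
  have hjnt := (h.J_jnt h𝒰 (j := d) (k := 1) (by omega)).smul (inv_pos.2 κ3).le (inv_pos.2 κ2).le
  rw [← hJ] at n3 κ3
  rw [← hJ] at n2 κ2
  rw [← hJ, ← hJ] at hjnt
  obtain ⟨a3, ha3⟩ : ∃ a3, a3 = J d (replicate (d + 3 - d) 1) := ⟨_, rfl⟩
  obtain ⟨a2, ha2⟩ : ∃ a2, a2 = J (d + 1) (replicate (d + 3 - (d + 1)) 1) := ⟨_, rfl⟩
  rw [← ha3] at n3 κ3 hjnt
  rw [← ha2] at n2 κ2 hjnt
  rw [show d + 3 - d = 3 by omega] at n3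
  rw [show d + 3 - (d + 1) = 2 by omega] at n2
  obtain ⟨F3, hF30, hF3⟩ := words3 hcomm s hs hC hz' n3 n2 hjnt
  obtain ⟨F2, hF20, hF2⟩ := words2 s hs hC hz' n2
  have hLinv : ∀ g, J (d + 2) (g ::ₘ 0) = J (d + 2) (1 ::ₘ 0) := by
    intro g
    have h1 := h.J_inv h𝒰 (show d + 2 ≤ d + 3 by omega) g (1 ::ₘ 0)
    rw [map_cons, map_zero, mul_one, ← hJ] at h1
    exact h1
  have hL0 : 0 ≤ J (d + 2) (1 ::ₘ 0) := by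
    rw [hJ]
    exact h.J_nonneg h𝒰 (by omega) _
  obtain ⟨C, hC0, htop⟩ := top_le h h𝒰 (by omega) (by omega)
  refine ⟨C * (1 + J (d + 2) (1 ::ₘ 0) + a3 * F3 + a2 * F2), fun w hw hwT => ?_⟩
  have h1 := hF3 w hw hwT
  have h2 := hF2 w hw hwT
  have h3 := htop w.prod
  have e1 : Finset.Icc (d + 1 - 1) (d + 3 - 1) = {d, d + 1, d + 2} := by
    ext x
    simp only [Finset.mem_Icc, Finset.mem_insert, Finset.mem_singleton]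
    omega
  rw [e1, Finset.sum_insert (by simp), Finset.sum_pair (by omega),
    show d + 3 - 1 - d = 2 by omega, show d + 3 - 1 - (d + 1) = 1 by omega,
    show d + 3 - 1 - (d + 2) = 0 by omega, replicate_zero, ← hJ, ← hJ, ← hJ, hLinv,
    show d + 3 - 1 = d + 2 by omega] at h3
  have e2 : w.prod ::ₘ replicate 2 1 = w.prod ::ₘ 1 ::ₘ 1 ::ₘ 0 := rfl
  have e3 : w.prod ::ₘ replicate 1 1 = w.prod ::ₘ 1 ::ₘ 0 := rfl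
  rw [e2, e3] at h3
  have hl : (1 : ℝ) ≤ w.length := by
    exact_mod_cast List.length_pos_iff.2 hw
  have hl4 : (1 : ℝ) ≤ (w.length : ℝ) ^ 4 := one_le_pow₀ hl
  have hl24 : (w.length : ℝ) ^ 2 ≤ (w.length : ℝ) ^ 4 := pow_le_pow_right₀ hl (by norm_num)
  have b3 : J d (w.prod ::ₘ 1 ::ₘ 1 ::ₘ 0) ≤ a3 * F3 * (w.length : ℝ) ^ 4 := by
    rw [inv_mul_le_iff₀ κ3] at h1
    linarith
  have b2 : J (d + 1) (w.prod ::ₘ 1 ::ₘ 0) ≤ a2 * F2 * (w.length : ℝ) ^ 4 := by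
    rw [inv_mul_le_iff₀ κ2] at h2
    have : a2 * (F2 * (w.length : ℝ) ^ 2) ≤ a2 * (F2 * (w.length : ℝ) ^ 4) := by gcongr
    linarith
  refine h3.trans ?_
  rw [mul_assoc]
  refine mul_le_mul_of_nonneg_left ?_ hC0.le
  have h4 : (1 + J (d + 2) (1 ::ₘ 0)) * 1 ≤ (1 + J (d + 2) (1 ::ₘ 0)) * (w.length : ℝ) ^ 4 :=
    mul_le_mul_of_nonneg_left hl4 (by linarith)
  linarith

/-- dimension three -/
theorem quart3 [IsDirected 𝒜 (· ≤ ·)] [Nonempty 𝒜] (h : GSys 3 t φ mul H m M ν c ε)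
    (hcomm : ∀ a b : G, a * b = b * a) {ι : Type} [Fintype ι] [Nonempty ι] (s : ι → G)
    (hs : Submonoid.closure (Set.range s) = ⊤)
    (hz : ∀ g : G, Gr 0 (fun l => t (φ (g ^ l) H ::ₘ replicate 2 H))) :
    ∃ C : ℝ, ∀ w : List G, w ≠ [] → (∀ g ∈ w, g ∈ Set.range s) →
      t (φ w.prod H ::ₘ replicate 2 H) ≤ C * (w.length : ℝ) ^ 4 := by
  classical
  obtain ⟨𝒰, h𝒰⟩ : ∃ 𝒰 : Ultrafilter ℕ, (𝒰 : Filter ℕ) ≤ atTop :=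
    ⟨Ultrafilter.of atTop, Ultrafilter.of_le atTop⟩
  have hC : ∀ v, 1 ≤ CCG 3 t φ H v := fun v => GSys.CC_one v
  have hz' : ∀ g : G, Sml (CCG 3 t φ H) 0 (fun l => g ^ l) := fun g =>
    h.inv_small (x := fun l => g ^ l) (hz g)
  have n3 := h.J_NF h𝒰 (Nat.zero_le ν)
  have κ3 := h.J_norm h𝒰 (Nat.zero_le ν)
  obtain ⟨a3, ha3⟩ : ∃ a3, a3 = JG 3 t φ H m M 𝒰 0 (replicate (3 - 0) 1) := ⟨_, rfl⟩
  rw [← ha3] at n3 κ3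
  rw [Nat.sub_zero] at n3
  obtain ⟨J2, hJ2, χ2, n2⟩ := leafAG s hs hC (k := 2) n3
  obtain ⟨F3, hF30, hF3⟩ := words3 hcomm s hs hC hz' n3 n2 (jointG (k := 1) n3 hJ2)
  refine ⟨a3 * F3, fun w hw hwT => ?_⟩
  have h1 := hF3 w hw hwT
  have h2 := h.J_top h𝒰 (w.prod ::ₘ 1 ::ₘ 1 ::ₘ 0) rfl
  rw [map_cons, map_cons, map_cons, map_zero, h.φ_one, id] at h2
  rw [h2, inv_mul_le_iff₀ κ3] at h1
  have e1 : φ w.prod H ::ₘ replicate 2 H = φ w.prod H ::ₘ H ::ₘ H ::ₘ 0 := rfl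
  rw [e1]
  linarith

/-- dimension two -/
theorem quart2 [IsDirected 𝒜 (· ≤ ·)] [Nonempty 𝒜] (h : GSys 2 t φ mul H m M ν c ε)
    {ι : Type} [Fintype ι] [Nonempty ι] (s : ι → G)
    (hs : Submonoid.closure (Set.range s) = ⊤)
    (hz : ∀ g : G, Gr 0 (fun l => t (φ (g ^ l) H ::ₘ replicate 1 H))) :
    ∃ C : ℝ, ∀ w : List G, w ≠ [] → (∀ g ∈ w, g ∈ Set.range s) →
      t (φ w.prod H ::ₘ replicate 1 H) ≤ C * (w.length : ℝ) ^ 4 := by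
  classical
  obtain ⟨𝒰, h𝒰⟩ : ∃ 𝒰 : Ultrafilter ℕ, (𝒰 : Filter ℕ) ≤ atTop :=
    ⟨Ultrafilter.of atTop, Ultrafilter.of_le atTop⟩
  have hC : ∀ v, 1 ≤ CCG 2 t φ H v := fun v => GSys.CC_one v
  have hz' : ∀ g : G, Sml (CCG 2 t φ H) 0 (fun l => g ^ l) := fun g =>
    h.inv_small (x := fun l => g ^ l) (hz g)
  have n2 := h.J_NF h𝒰 (Nat.zero_le ν)
  have κ2 := h.J_norm h𝒰 (Nat.zero_le ν)
  obtain ⟨a2, ha2⟩ : ∃ a2, a2 = JG 2 t φ H m M 𝒰 0 (replicate (2 - 0) 1) := ⟨_, rfl⟩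
  rw [← ha2] at n2 κ2
  rw [Nat.sub_zero] at n2
  obtain ⟨F2, hF20, hF2⟩ := words2 s hs hC hz' n2
  refine ⟨a2 * F2, fun w hw hwT => ?_⟩
  have h1 := hF2 w hw hwT
  have h2 := h.J_top h𝒰 (w.prod ::ₘ 1 ::ₘ 0) rfl
  rw [map_cons, map_cons, map_zero, h.φ_one, id] at h2
  rw [h2, inv_mul_le_iff₀ κ2] at h1
  have e1 : φ w.prod H ::ₘ replicate 1 H = φ w.prod H ::ₘ H ::ₘ 0 := rfl
  have hl : (1 : ℝ) ≤ w.length := by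
    exact_mod_cast List.length_pos_iff.2 hw
  have hl24 : (w.length : ℝ) ^ 2 ≤ (w.length : ℝ) ^ 4 := pow_le_pow_right₀ hl (by norm_num)
  have h3 : a2 * (F2 * (w.length : ℝ) ^ 2) ≤ a2 * (F2 * (w.length : ℝ) ^ 4) := by gcongr
  rw [e1]
  linarith

end

end Run7.h913.QG
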