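import Pool.Agent.N110.RK.Main
import Pool.Agent.Run7.h528.NR.Geo
import Pool.Agent.Run7.h913.QG.Quart

/-!
The growth of the degrees of groups of birational self-maps which preserve `K_X + Δ`, and the
numerical dimension of `K_X + Δ`.
-/

set_option autoImplicit false
set_option linter.overlappingInstances false
set_option linter.unusedSectionVars false

open FF Module MvPolynomial Pool.Agent.W602.GT Pool.Agent.W603.LV
open Pool.Agent.Y172 Pool.Agent.Y191 Pool.Agent.R887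
open Pool.Agent.N110 Pool.Agent.N110.RK Run7.h528.NR
open scoped ENNReal

namespace Run7.h913.QG

section

variable {K : Type} [Field K] [Algebra ℂ K] {N n : ℕ} {y : Fin (N + 1) → K}

/-- the degrees in terms of intersection numbers -/
theorem deg_eq (hy : NormalModel y) (hn : Algebra.trdeg ℂ K = n) (hn0 : 0 < n)
    {i : Fin (N + 1)} (hi : y i ≠ 0) (φ : K ≃ₐ[ℂ] K) : mixedDegree φ y n 1 =
      (I (mapCls hy hi φ (hcls hy hi) ::ₘ Multiset.replicate (n - 1) (hcls hy hi)) : ℝ≥0∞) := by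
  rw [mixedDegree_eq hy hn hi φ (by omega : 1 ≤ n), Multiset.replicate_one,
    Multiset.singleton_add]

/-- the degrees on a curve -/
theorem deg_curve (hy : NormalModel y) (hn : Algebra.trdeg ℂ K = (1 : ℕ)) {i : Fin (N + 1)}
    (hi : y i ≠ 0) (φ : K ≃ₐ[ℂ] K) : mixedDegree φ y 1 1 =
      (I (Multiset.replicate 1 (hcls hy hi)) : ℝ≥0∞) := by
  rw [deg_eq hy hn one_pos hi φ]
  have h1 := I_map hy hn hi φ (s := Multiset.replicate 1 (hcls hy hi))
    (Multiset.card_replicate _ _)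
  rw [Multiset.map_replicate] at h1
  rw [← h1]
  rfl

/-- **Quadratic growth.** -/
theorem quad_main (hy : NormalModel y) (hn : Algebra.trdeg ℂ K = n) (hn0 : 0 < n)
    {Δ : Place ℂ K → ℚ} (hΔ : {P | IsPrimeDivisor y P ∧ Δ P ≠ 0}.Finite)
    {S : Set (K ≃ₐ[ℂ] K)} {D : ℕ} (hD : ∀ g ∈ S, mixedDegree g y n 1 ≤ D)
    (hP : ∀ g ∈ Subgroup.closure S, PullLe g y n Δ)
    (hgrow : ∀ C : ℕ, ∃ w : List (K ≃ₐ[ℂ] K), w ≠ [] ∧ (∀ g ∈ w, g ∈ S ∨ g⁻¹ ∈ S) ∧
      (C : ℝ≥0∞) * (w.length : ℝ≥0∞) ^ 2 < mixedDegree w.prod y n 1) :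
    1 < n ∧ NumDimLt y n Δ (n - 1) := by
  classical
  obtain ⟨i, hi⟩ := hy.ne
  have h1 : 1 < n := by
    by_contra hcon
    obtain rfl : n = 1 := by omega
    obtain ⟨w, hw, -, hlt⟩ := hgrow (I (Multiset.replicate 1 (hcls hy hi)))
    rw [deg_curve hy hn hi] at hlt
    have h2 : (1 : ℝ≥0∞) ≤ (w.length : ℝ≥0∞) ^ 2 := by
      refine one_le_pow₀ ?_
      exact_mod_cast List.length_pos_iff.2 hw
    have h3 := mul_le_mul_right h2 ((I (Multiset.replicate 1 (hcls hy hi)) : ℕ) : ℝ≥0∞)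
    rw [mul_one] at h3
    exact absurd (h3.trans_lt hlt) (lt_irrefl _)
  refine ⟨h1, ?_⟩
  by_contra hnum
  obtain ⟨d, rfl⟩ : ∃ d, n = d + 2 := ⟨n - 2, by omega⟩
  rw [show d + 2 - 1 = d + 1 by omega] at hnum
  obtain ⟨m, M, c, ε, h⟩ := exists_gsys hy hn hn0 hi hΔ (G := Subgroup.closure S)
    (φ := fun g => (g : K ≃ₐ[ℂ] K)) rfl (fun _ _ => rfl) (fun g => hP g g.2) (by omega) hnum
  obtain ⟨T, hT⟩ : ∃ T : Set (Subgroup.closure S),
      T = {g : Subgroup.closure S | (g : K ≃ₐ[ℂ] K) ∈ S} := ⟨_, rfl⟩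
  have hb : ∀ g ∈ T, ((I (mapCls hy hi (g : K ≃ₐ[ℂ] K) (hcls hy hi) ::ₘ
      Multiset.replicate (d + 1) (hcls hy hi)) : ℕ) : ℝ) ≤ D := by
    intro g hg
    rw [hT] at hg
    have h2 := hD _ hg
    rw [deg_eq hy hn hn0 hi, show d + 2 - 1 = d + 1 by omega] at h2
    exact_mod_cast h2
  obtain ⟨C, hC⟩ := quad h hb
  obtain ⟨C', hC'⟩ := exists_nat_ge C
  obtain ⟨w, hw, hwS, hlt⟩ := hgrow C'
  have hmem : ∀ g ∈ w, g ∈ Subgroup.closure S := by
    intro g hg
    rcases hwS g hg with h2 | h2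
    · exact Subgroup.subset_closure h2
    · have := Subgroup.inv_mem _ (Subgroup.subset_closure h2)
      rwa [inv_inv] at this
  obtain ⟨w', hw'⟩ : ∃ w' : List (Subgroup.closure S), w'.map Subtype.val = w :=
    ⟨w.pmap (fun g hg => ⟨g, hg⟩) hmem, by rw [List.map_pmap]; simp⟩
  have hprod : ((w'.prod : Subgroup.closure S) : K ≃ₐ[ℂ] K) = w.prod := by
    rw [← hw', Subgroup.val_list_prod]
  have hlen : w'.length = w.length := by rw [← hw', List.length_map]
  have h2 := hC w' (by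
    rintro rfl
    exact hw (by rw [← hw']; rfl)) (by
    intro g hg
    have h3 : (g : K ≃ₐ[ℂ] K) ∈ w := by
      rw [← hw']
      exact List.mem_map_of_mem hg
    rcases hwS _ h3 with h4 | h4
    · left
      rw [hT]
      exact h4
    · right
      rw [hT]
      exact h4)
  beta_reduce at h2
  rw [hprod, hlen] at h2
  have h3 : ((I (mapCls hy hi w.prod (hcls hy hi) ::ₘ
      Multiset.replicate (d + 1) (hcls hy hi)) : ℕ) : ℝ) ≤ ((C' * w.length ^ 2 : ℕ) : ℝ) := by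
    refine h2.trans ?_
    push_cast
    gcongr
  rw [deg_eq hy hn hn0 hi, show d + 2 - 1 = d + 1 by omega] at hlt
  have h4 : ((I (mapCls hy hi w.prod (hcls hy hi) ::ₘ
      Multiset.replicate (d + 1) (hcls hy hi)) : ℕ) : ℝ≥0∞) ≤ ((C' * w.length ^ 2 : ℕ) : ℝ≥0∞) := by
    exact_mod_cast h3
  refine absurd (hlt.trans_le h4) ?_
  push_cast
  exact lt_irrefl _

end

end Run7.h913.QG
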