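import Pool.Agent.Run7.h528.NR.Main
import Pool.Agent.Run7.h913.QG.Main

/-!
Quartic growth for abelian groups of birational self-maps of zero entropy.
-/

set_option autoImplicit false
set_option linter.overlappingInstances false
set_option linter.unusedSectionVars false

open FF Module MvPolynomial Pool.Agent.W602.GT Pool.Agent.W603.LV
open Pool.Agent.Y172 Pool.Agent.Y191 Pool.Agent.R887
open Pool.Agent.N110 Pool.Agent.N110.RK Run7.h528.NR
open scoped ENNReal

namespace Run7.h913.QG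

section

variable {K : Type} [Field K] [Algebra ℂ K] {N n : ℕ} {y : Fin (N + 1) → K}

/-- zero entropy: the degrees of the iterates grow subexponentially -/
theorem gr_of_dyn (hy : NormalModel y) (hn : Algebra.trdeg ℂ K = n) (hn0 : 0 < n)
    {i : Fin (N + 1)} (hi : y i ≠ 0) (φ : K ≃ₐ[ℂ] K) (h : dynDegree φ y n 1 ≤ 1) :
    Gr 0 (fun l => ((I (mapCls hy hi (φ ^ l) (hcls hy hi) ::ₘ
      Multiset.replicate (n - 1) (hcls hy hi)) : ℕ) : ℝ)) := by
  intro ε hε
  obtain ⟨a, ha⟩ : ∃ a : ℕ → ℕ, ∀ l, a l = I (mapCls hy hi (φ ^ l) (hcls hy hi) ::ₘ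
      Multiset.replicate (n - 1) (hcls hy hi)) := ⟨_, fun _ => rfl⟩
  have h1 : dynDegree φ y n 1 < ENNReal.ofReal (Real.exp ε) := by
    refine h.trans_lt ?_
    rw [← ENNReal.ofReal_one]
    exact (ENNReal.ofReal_lt_ofReal_iff (Real.exp_pos ε)).2 (Real.one_lt_exp_iff.2 hε)
  unfold dynDegree at h1
  have h2 := Filter.eventually_lt_of_limsup_lt h1
  obtain ⟨l0, hl0⟩ := Filter.eventually_atTop.1 h2
  have hS : 0 ≤ ∑ l ∈ Finset.range (l0 + 1), (a l : ℝ) :=
    Finset.sum_nonneg fun l _ => Nat.cast_nonneg _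
  refine ⟨1 + ∑ l ∈ Finset.range (l0 + 1), (a l : ℝ), fun l => ?_⟩
  beta_reduce
  rw [← ha]
  have he : 1 ≤ Real.exp (ε * l) := Real.one_le_exp (by positivity)
  rcases Nat.lt_or_ge l (l0 + 1) with hl | hl
  · have h3 : (a l : ℝ) ≤ ∑ l ∈ Finset.range (l0 + 1), (a l : ℝ) :=
      Finset.single_le_sum (f := fun l => (a l : ℝ)) (fun _ _ => Nat.cast_nonneg _)
        (Finset.mem_range.2 hl)
    have h4 := mul_le_mul_of_nonneg_left he
      (show 0 ≤ 1 + ∑ l ∈ Finset.range (l0 + 1), (a l : ℝ) by linarith)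
    linarith
  · have h3 := hl0 l (by omega)
    rw [deg_eq hy hn hn0 hi, ← ha] at h3
    have hl1 : (l : ℝ) ≠ 0 := by
      have : 0 < l := by omega
      positivity
    have h4 : ((a l : ℕ) : ℝ≥0∞) ≤ ENNReal.ofReal (Real.exp (ε * l)) := by
      have h5 := ENNReal.rpow_le_rpow h3.le (Nat.cast_nonneg (α := ℝ) l)
      rw [← ENNReal.rpow_mul, one_div, inv_mul_cancel₀ hl1, ENNReal.rpow_one] at h5
      refine h5.trans (le_of_eq ?_)
      rw [ENNReal.ofReal_rpow_of_pos (Real.exp_pos ε), ← Real.exp_mul]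
    have h5 : (a l : ℝ) ≤ Real.exp (ε * l) := by
      have h6 := (ENNReal.ofReal_le_ofReal_iff (Real.exp_pos (ε * l)).le
        (p := (a l : ℝ))).1 (by rwa [ENNReal.ofReal_natCast])
      exact h6
    have h6 := mul_le_mul_of_nonneg_right
      (show 1 ≤ 1 + ∑ l ∈ Finset.range (l0 + 1), (a l : ℝ) by linarith) (Real.exp_pos (ε * l)).le
    linarith

/-- a group generated by commuting elements is commutative -/
theorem comm_closure {r : ℕ} {f : Fin r → (K ≃ₐ[ℂ] K)} (hf : ∀ i j, f i * f j = f j * f i) :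
    ∀ a b : Subgroup.closure (Set.range f), a * b = b * a := by
  intro a b
  have h1 := (Subgroup.closureCommGroupOfComm (k := Set.range f) (by
    rintro _ ⟨i, rfl⟩ _ ⟨j, rfl⟩
    exact hf i j)).mul_comm a b
  exact h1

theorem nil_closure {r : ℕ} {f : Fin r → (K ≃ₐ[ℂ] K)} (hf : ∀ i j, f i * f j = f j * f i) :
    Group.IsNilpotent (Subgroup.closure (Set.range f)) := by
  have h1 := comm_closure hf
  refine Subgroup.nilpotent_iff_lowerCentralSeries.2 ⟨1, ?_⟩
  rw [Subgroup.lowerCentralSeries_succ, eq_bot_iff, Subgroup.commutator_le]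
  intro a _ b _
  rw [Subgroup.mem_bot, commutatorElement_def, h1 a b]
  group

/-- the contradiction from a bound for the words -/
theorem contra (hy : NormalModel y) (hn : Algebra.trdeg ℂ K = n) (hn0 : 0 < n)
    {i : Fin (N + 1)} (hi : y i ≠ 0) {r p : ℕ} {f : Fin r → (K ≃ₐ[ℂ] K)}
    (hgrow : ∀ C : ℕ, ∃ w : List (K ≃ₐ[ℂ] K), w ≠ [] ∧
      (∀ g ∈ w, g ∈ Set.range f ∨ g⁻¹ ∈ Set.range f) ∧
      (C : ℝ≥0∞) * (w.length : ℝ≥0∞) ^ p < mixedDegree w.prod y n 1)
    (hC : ∃ C : ℝ, ∀ w : List (Subgroup.closure (Set.range f)), w ≠ [] →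
      (∀ g ∈ w, g ∈ Set.range (fun i : Option (Fin r) × Bool =>
        i.1.elim 1 fun j => if i.2 then gens f j else (gens f j)⁻¹)) →
      ((I (mapCls hy hi ((w.prod : Subgroup.closure (Set.range f)) : K ≃ₐ[ℂ] K) (hcls hy hi) ::ₘ
        Multiset.replicate (n - 1) (hcls hy hi)) : ℕ) : ℝ) ≤ C * (w.length : ℝ) ^ p) : False := by
  classical
  obtain ⟨C, hC⟩ := hC
  obtain ⟨C', hC'⟩ := exists_nat_ge C
  obtain ⟨w, hw, hwS, hlt⟩ := hgrow C'
  have hmem : ∀ g ∈ w, g ∈ Subgroup.closure (Set.range f) := by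
    intro g hg
    rcases hwS g hg with h2 | h2
    · exact Subgroup.subset_closure h2
    · have := Subgroup.inv_mem _ (Subgroup.subset_closure h2)
      rwa [inv_inv] at this
  obtain ⟨w', hw'⟩ : ∃ w' : List (Subgroup.closure (Set.range f)), w'.map Subtype.val = w :=
    ⟨w.pmap (fun g hg => ⟨g, hg⟩) hmem, by rw [List.map_pmap]; simp⟩
  have hprod : ((w'.prod : Subgroup.closure (Set.range f)) : K ≃ₐ[ℂ] K) = w.prod := by
    rw [← hw', Subgroup.val_list_prod]
  have hlen : w'.length = w.length := by rw [← hw', List.length_map]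
  have h2 := hC w' (by
    rintro rfl
    exact hw (by rw [← hw']; rfl)) (by
    intro g hg
    have h3 : (g : K ≃ₐ[ℂ] K) ∈ w := by
      rw [← hw']
      exact List.mem_map_of_mem hg
    rcases hwS _ h3 with ⟨j, hj⟩ | ⟨j, hj⟩
    · refine ⟨(some j, true), ?_⟩
      simp only [Option.elim_some, if_true]
      exact Subtype.ext hj
    · refine ⟨(some j, false), ?_⟩
      simp only [Option.elim_some, Bool.false_eq_true, if_false]
      rw [inv_eq_iff_eq_inv]
      exact Subtype.ext hj)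
  rw [hprod, hlen] at h2
  have h3 : ((I (mapCls hy hi w.prod (hcls hy hi) ::ₘ
      Multiset.replicate (n - 1) (hcls hy hi)) : ℕ) : ℝ) ≤ ((C' * w.length ^ p : ℕ) : ℝ) := by
    refine h2.trans ?_
    push_cast
    gcongr
  rw [deg_eq hy hn hn0 hi] at hlt
  have h4 : ((I (mapCls hy hi w.prod (hcls hy hi) ::ₘ
      Multiset.replicate (n - 1) (hcls hy hi)) : ℕ) : ℝ≥0∞) ≤ ((C' * w.length ^ p : ℕ) : ℝ≥0∞) := by
    exact_mod_cast h3
  refine absurd (hlt.trans_le h4) ?_
  push_cast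
  exact lt_irrefl _

/-- the trivial system of intersection numbers -/
theorem triv_closure (hy : NormalModel y) (hn : Algebra.trdeg ℂ K = n) (hn0 : 0 < n)
    {i : Fin (N + 1)} (hi : y i ≠ 0) {r : ℕ} (f : Fin r → (K ≃ₐ[ℂ] K)) :
    GSys n (fun s : Multiset (Cls ℂ (affS y i)) => (I s : ℝ))
      (fun v : Subgroup.closure (Set.range f) => mapCls hy hi (v : K ≃ₐ[ℂ] K))
      (mulCls (fin_affS i) (one_affS hi)) (hcls hy hi) (fun q : ℕ => (q : ℝ) + 1)
      (fun (a : ℕ) (_ : ℕ) => RSys.D (mulCls (fin_affS i) (one_affS hi)) (hcls hy hi)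
        (hcls hy hi) a) 0 1 ((I (Multiset.replicate n (hcls hy hi)) : ℕ) : ℝ) := by
  classical
  have cx := ctx hy hn hi
  exact triv_gsys (n := n) (G := Subgroup.closure (Set.range f))
    (t := fun s : Multiset (Cls ℂ (affS y i)) => (I s : ℝ))
    (φ := fun v => mapCls hy hi (v : K ≃ₐ[ℂ] K)) (mul := mulCls (fin_affS i) (one_affS hi))
    (H := hcls hy hi) (fun s hs => by exact_mod_cast I_pos cx hs) (exch cx) hn0
    (by
      funext A
      exact mapCls_one)
    (by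
      intro u v
      funext A
      change _ = mapCls hy hi (u : K ≃ₐ[ℂ] K) (mapCls hy hi (v : K ≃ₐ[ℂ] K) A)
      rw [mapCls_mapCls]
      rfl)
    (by
      intro u s hs
      exact_mod_cast I_map hy hn hi (u : K ≃ₐ[ℂ] K) hs)
    (by
      intro a b s hs
      have h1 := I_add cx (D := mulCls (fin_affS i) (one_affS hi) a b) (V := a) (V' := b)
        le_rfl hs
      have h2 := I_mul_ge cx (D := mulCls (fin_affS i) (one_affS hi) a b) (V := a) (V' := b)
        le_rfl hs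
      exact_mod_cast le_antisymm h1 h2)

/-- **Quartic growth.** -/
theorem quart_main (hy : NormalModel y) (hn : Algebra.trdeg ℂ K = n) (hn0 : 0 < n)
    {Δ : Place ℂ K → ℚ} (hΔ : {P | IsPrimeDivisor y P ∧ Δ P ≠ 0}.Finite) {r : ℕ}
    (f : Fin r → (K ≃ₐ[ℂ] K)) (hf : ∀ i j, f i * f j = f j * f i)
    (hzero : ∀ g ∈ Subgroup.closure (Set.range f), dynDegree g y n 1 ≤ 1)
    (hP : ∀ g ∈ Subgroup.closure (Set.range f), PullLe g y n Δ)
    (hgrow : ∀ C : ℕ, ∃ w : List (K ≃ₐ[ℂ] K), w ≠ [] ∧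
      (∀ g ∈ w, g ∈ Set.range f ∨ g⁻¹ ∈ Set.range f) ∧
      (C : ℝ≥0∞) * (w.length : ℝ≥0∞) ^ 4 < mixedDegree w.prod y n 1) :
    3 < n ∧ NumDimLt y n Δ (n - 2) := by
  classical
  obtain ⟨i, hi⟩ := hy.ne
  haveI hnil := nil_closure hf
  have hcomm := comm_closure hf
  have hz : ∀ g : Subgroup.closure (Set.range f),
      Gr 0 (fun l => ((I (mapCls hy hi ((g ^ l : Subgroup.closure (Set.range f)) : K ≃ₐ[ℂ] K)
        (hcls hy hi) ::ₘ Multiset.replicate (n - 1) (hcls hy hi)) : ℕ) : ℝ)) := by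
    intro g
    have h1 := gr_of_dyn hy hn hn0 hi (g : K ≃ₐ[ℂ] K) (hzero g g.2)
    exact h1
  have hcl := closure_gens (gens f) (gens_top f)
  have h3 : 3 < n := by
    by_contra hcon
    have h4 : n = 1 ∨ n = 2 ∨ n = 3 := by omega
    rcases h4 with rfl | rfl | rfl
    · refine contra hy hn hn0 hi hgrow ⟨(I (Multiset.replicate 1 (hcls hy hi)) : ℕ), ?_⟩
      intro w hw _
      have h5 := deg_curve hy hn hi ((w.prod : Subgroup.closure (Set.range f)) : K ≃ₐ[ℂ] K)
      rw [deg_eq hy hn one_pos hi] at h5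
      have h6 : I (mapCls hy hi ((w.prod : Subgroup.closure (Set.range f)) : K ≃ₐ[ℂ] K)
        (hcls hy hi) ::ₘ Multiset.replicate (1 - 1) (hcls hy hi)) =
          I (Multiset.replicate 1 (hcls hy hi)) := by exact_mod_cast h5
      rw [h6]
      have h7 : (1 : ℝ) ≤ (w.length : ℝ) ^ 4 := by
        refine one_le_pow₀ ?_
        exact_mod_cast List.length_pos_iff.2 hw
      have h8 := mul_le_mul_of_nonneg_left h7
        (Nat.cast_nonneg (α := ℝ) (I (Multiset.replicate 1 (hcls hy hi))))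
      rw [mul_one] at h8
      exact h8
    · exact contra hy hn hn0 hi hgrow
        (quart2 (triv_closure hy hn hn0 hi f) _ hcl hz)
    · exact contra hy hn hn0 hi hgrow
        (quart3 (triv_closure hy hn hn0 hi f) hcomm _ hcl hz)
  refine ⟨h3, ?_⟩
  by_contra hnum
  obtain ⟨d, rfl⟩ : ∃ d, n = d + 3 := ⟨n - 3, by omega⟩
  rw [show d + 3 - 2 = d + 1 by omega] at hnum
  obtain ⟨m, M, c, ε, h⟩ := exists_gsys hy hn hn0 hi hΔ (G := Subgroup.closure (Set.range f))
    (φ := fun g => (g : K ≃ₐ[ℂ] K)) rfl (fun _ _ => rfl) (fun g => hP g g.2) (by omega) hnum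
  exact contra hy hn hn0 hi hgrow (quart h hcomm _ hcl hz)

end

end Run7.h913.QG
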