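import Mathlib

/-!
Functions on a group which are bounded by powers of the word length.
-/

set_option autoImplicit false

namespace Run7.h913.QG

variable {G : Type} [Group G]

/-- the products of at most `2 ^ k` elements -/
theorem words_pow {f : G → ℝ} {R F : ℝ} (hR : 1 ≤ R) (hF : 0 ≤ F)
    (hf : ∀ g h, f (g * h) ≤ R * max (f g) (f h)) {T : Set G} (hT : ∀ g ∈ T, f g ≤ F)
    (h1 : f 1 ≤ F) (k : ℕ) : ∀ w : List G, (∀ g ∈ w, g ∈ T) → w.length ≤ 2 ^ k →
      f w.prod ≤ R ^ k * F := by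
  induction k with
  | zero =>
    intro w hw hl
    rw [pow_zero] at hl
    rw [pow_zero, one_mul]
    match w, hw, hl with
    | [], _, _ => simpa using h1
    | [x], hw, _ => simpa using hT x (hw x (by simp))
    | x :: x' :: w, _, hl => simp at hl
  | succ k ih =>
    intro w hw hl
    have e : w = w.take (2 ^ k) ++ w.drop (2 ^ k) := (List.take_append_drop _ _).symm
    have h2 := ih (w.take (2 ^ k)) (fun g hg => hw g (List.mem_of_mem_take hg)) (by
      rw [List.length_take]
      exact min_le_left _ _)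
    have h3 := ih (w.drop (2 ^ k)) (fun g hg => hw g (List.mem_of_mem_drop hg)) (by
      rw [List.length_drop, pow_succ] at *
      omega)
    rw [e, List.prod_append]
    have hR0 : 0 ≤ R := zero_le_one.trans hR
    calc f (_ * _) ≤ R * max _ _ := hf _ _
      _ ≤ R * (R ^ k * F) := mul_le_mul_of_nonneg_left (max_le h2 h3) hR0
      _ = R ^ (k + 1) * F := by rw [pow_succ]; ring

/-- the products of `l` elements, for `R = 2 ^ d` -/
theorem words_le {f : G → ℝ} {F : ℝ} (d : ℕ) (hF : 0 ≤ F)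
    (hf : ∀ g h, f (g * h) ≤ 2 ^ d * max (f g) (f h)) {T : Set G} (hT : ∀ g ∈ T, f g ≤ F)
    (h1 : f 1 ≤ F) (w : List G) (hw : ∀ g ∈ w, g ∈ T) (hne : w ≠ []) :
    f w.prod ≤ 2 ^ d * F * (w.length : ℝ) ^ d := by
  have hl : 0 < w.length := List.length_pos_iff.2 hne
  obtain ⟨k, hk⟩ : ∃ k, k = Nat.clog 2 w.length := ⟨_, rfl⟩
  have hk1 : w.length ≤ 2 ^ k := by rw [hk]; exact Nat.le_pow_clog (by norm_num) _
  have hk2 : 2 ^ k ≤ 2 * w.length := by
    rcases Nat.eq_or_lt_of_le (show 1 ≤ w.length from hl) with h2 | h2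
    · rw [hk, ← h2]
      simp
    · have h3 : 2 ^ (k - 1) < w.length := by
        rw [hk]
        exact Nat.pow_pred_clog_lt_self (by norm_num) h2
      have h4 : 0 < k := by
        rw [hk]
        exact Nat.clog_pos (by norm_num) h2
      have h5 : 2 ^ k = 2 * 2 ^ (k - 1) := by
        rw [← pow_succ']
        congr 1
        omega
      omega
  have h3 := words_pow (one_le_pow₀ (by norm_num)) hF hf hT h1 k w hw hk1
  refine h3.trans ?_
  have h4 : ((2 : ℝ) ^ d) ^ k = ((2 ^ k : ℕ) : ℝ) ^ d := by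
    rw [← pow_mul, mul_comm, pow_mul]
    push_cast
    rfl
  have h5 : ((2 ^ k : ℕ) : ℝ) ^ d ≤ (2 * (w.length : ℝ)) ^ d := by
    refine pow_le_pow_left₀ (by positivity) ?_ _
    exact_mod_cast hk2
  rw [h4]
  calc ((2 ^ k : ℕ) : ℝ) ^ d * F ≤ (2 * (w.length : ℝ)) ^ d * F :=
        mul_le_mul_of_nonneg_right h5 hF
    _ = _ := by rw [mul_pow]; ring

end Run7.h913.QG
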