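import Pool.Agent.Run7.h913.QG.Top
import Pool.Agent.Run7.h913.QG.Words

/-!
Quadratic growth of the degrees, if the numerical dimension is at least `n - 1`.
-/

set_option autoImplicit false
set_option linter.unusedSectionVars false

open Multiset Filter Topology

namespace Run7.h913.QG

open Pool.Agent.N110 Pool.Agent.N110.RK Run7.h528.NR

section

variable {G : Type} [Group G] {J : Multiset G → ℝ}

/-- a form of degree two with an invariant element -/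
theorem two_sub {L : Multiset G → ℝ} {κ : ℝ} (hκ : 0 < κ) (hJL : Jnt 0 J L)
    (hL : ∀ g, L (g ::ₘ 0) = κ) (hinv : ∀ (u : G) s, J (s.map (fun v => u * v)) = J s) (g h : G) :
    J ((g * h) ::ₘ 1 ::ₘ 0) ≤ 2 * (J (g ::ₘ 1 ::ₘ 0) + J (h ::ₘ 1 ::ₘ 0)) := by
  have h1 := hJL 0 card_zero g (g * h) 1
  rw [hL, hL, hL] at h1
  have h2 : J (g ::ₘ (g * h) ::ₘ 0) = J (h ::ₘ 1 ::ₘ 0) := by
    have h3 := hinv g (1 ::ₘ h ::ₘ 0)
    rw [map_cons, map_cons, map_zero, mul_one] at h3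
    rw [h3, cons_swap]
  rw [h2] at h1
  have h3 : κ * J ((g * h) ::ₘ 1 ::ₘ 0) ≤
      κ * (2 * (J (g ::ₘ 1 ::ₘ 0) + J (h ::ₘ 1 ::ₘ 0))) := by
    calc _ ≤ _ := h1
      _ = _ := by ring
  exact le_of_mul_le_mul_left h3 hκ

theorem two_inv (hinv : ∀ (u : G) s, J (s.map (fun v => u * v)) = J s) (g : G) :
    J (g⁻¹ ::ₘ 1 ::ₘ 0) = J (g ::ₘ 1 ::ₘ 0) := by
  have h3 := hinv g (g⁻¹ ::ₘ 1 ::ₘ 0)
  rw [map_cons, map_cons, map_zero, mul_one, mul_inv_cancel, cons_swap] at h3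
  exact h3.symm

end

section

variable {α 𝒜 G : Type} [Preorder 𝒜] [Group G] {n : ℕ} {t : Multiset α → ℝ} {φ : G → α → α}
  {mul : α → α → α} {H : α} {m : ℕ → ℝ} {M : 𝒜 → ℕ → α} {ν : ℕ} {c ε : ℝ} {𝒰 : Ultrafilter ℕ}

/-- the bound for the limit forms -/
theorem J_bound [IsDirected 𝒜 (· ≤ ·)] [Nonempty 𝒜] (h : GSys n t φ mul H m M ν c ε)
    (h𝒰 : (𝒰 : Filter ℕ) ≤ atTop) {j : ℕ} (hj : j ≤ n) {g : G} {B : ℝ}
    (hB : t (φ g H ::ₘ replicate (n - 1) H) ≤ B) (s : Multiset G) :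
    JG n t φ H m M 𝒰 j (g ::ₘ s) ≤ max 1 (4 ^ (n - 1) * B / t (replicate n H)) *
      JG n t φ H m M 𝒰 j (1 ::ₘ s) := by
  have h1 := h.J_dom h𝒰 hj g 1 s
  rw [inv_one, one_mul] at h1
  have hT := h.tH
  refine h1.trans (mul_le_mul_of_nonneg_right ?_ (h.J_nonneg h𝒰 hj _))
  unfold CCG
  refine max_le_max le_rfl ?_
  gcongr

/-- **Quadratic growth.** -/
theorem quad [IsDirected 𝒜 (· ≤ ·)] [Nonempty 𝒜] {d : ℕ}
    (h : GSys (d + 2) t φ mul H m M (d + 1) c ε) {T : Set G} {B : ℝ}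
    (hT : ∀ g ∈ T, t (φ g H ::ₘ replicate (d + 1) H) ≤ B) :
    ∃ C : ℝ, ∀ w : List G, w ≠ [] → (∀ g ∈ w, g ∈ T ∨ g⁻¹ ∈ T) →
      t (φ w.prod H ::ₘ replicate (d + 1) H) ≤ C * (w.length : ℝ) ^ 2 := by
  classical
  obtain ⟨𝒰, h𝒰⟩ : ∃ 𝒰 : Ultrafilter ℕ, (𝒰 : Filter ℕ) ≤ atTop :=
    ⟨Ultrafilter.of atTop, Ultrafilter.of_le atTop⟩
  obtain ⟨J, hJ⟩ : ∃ J, J = JG (d + 2) t φ H m M 𝒰 d := ⟨_, rfl⟩
  obtain ⟨L, hL⟩ : ∃ L, L = JG (d + 2) t φ H m M 𝒰 (d + 1) := ⟨_, rfl⟩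
  have hLinv : ∀ g, L (g ::ₘ 0) = L (1 ::ₘ 0) := by
    intro g
    have h1 := h.J_inv h𝒰 (show d + 1 ≤ d + 2 by omega) g (1 ::ₘ 0)
    rw [map_cons, map_zero, mul_one, ← hL] at h1
    exact h1
  have hκ : 0 < L (1 ::ₘ 0) := by
    have h1 := h.J_norm h𝒰 (le_refl (d + 1))
    rw [show d + 2 - (d + 1) = 1 by omega, replicate_one, ← hL] at h1
    exact h1
  have hJinv : ∀ (u : G) s, J (s.map (fun v => u * v)) = J s := by
    intro u s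
    rw [hJ]
    exact h.J_inv h𝒰 (show d ≤ d + 2 by omega) u s
  have hJL : Jnt 0 J L := by
    rw [hJ, hL]
    exact h.J_jnt h𝒰 (by omega)
  have hJ0 : ∀ s, 0 ≤ J s := fun s => by
    rw [hJ]
    exact h.J_nonneg h𝒰 (by omega) s
  obtain ⟨f, hf⟩ : ∃ f : G → ℝ, ∀ g, f g = J (g ::ₘ 1 ::ₘ 0) := ⟨_, fun _ => rfl⟩
  have hsub : ∀ g h, f (g * h) ≤ 2 ^ 2 * max (f g) (f h) := by
    intro g h
    have h1 := two_sub hκ hJL hLinv hJinv g h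
    rw [← hf, ← hf, ← hf] at h1
    have h2 := le_max_left (f g) (f h)
    have h3 := le_max_right (f g) (f h)
    linarith
  have hfinv : ∀ g, f g⁻¹ = f g := fun g => by
    rw [hf, hf]
    exact two_inv hJinv g
  obtain ⟨E, hE⟩ : ∃ E : ℝ, E = max 1 (4 ^ (d + 2 - 1) * B / t (replicate (d + 2) H)) := ⟨_, rfl⟩
  have hE1 : 1 ≤ E := by rw [hE]; exact le_max_left _ _
  have hf0 : ∀ g, 0 ≤ f g := fun g => by rw [hf]; exact hJ0 _
  have hbd : ∀ g ∈ T, f g ≤ E * f 1 := by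
    intro g hg
    have h1 := J_bound h h𝒰 (show d ≤ d + 2 by omega) (hT g hg) (1 ::ₘ 0)
    rw [← hJ, ← hE] at h1
    rw [hf, hf]
    exact h1
  have hbd' : ∀ g ∈ {g | g ∈ T ∨ g⁻¹ ∈ T}, f g ≤ E * f 1 := by
    rintro g (hg | hg)
    · exact hbd g hg
    · rw [← hfinv]
      exact hbd _ hg
  have h11 : f 1 ≤ E * f 1 := by
    have := mul_le_mul_of_nonneg_right hE1 (hf0 1)
    linarith
  have hF0 : 0 ≤ E * f 1 := mul_nonneg (zero_le_one.trans hE1) (hf0 1)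
  obtain ⟨C, hC, htop⟩ := top_le h h𝒰 (by omega) (by omega)
  refine ⟨C * (1 + L (1 ::ₘ 0) + 2 ^ 2 * (E * f 1)), fun w hw hwT => ?_⟩
  have h1 := words_le 2 hF0 hsub hbd' h11 w hwT hw
  have h2 := htop w.prod
  have e1 : Finset.Icc (d + 1 - 1) (d + 2 - 1) = {d, d + 1} := by
    ext x
    simp only [Finset.mem_Icc, Finset.mem_insert, Finset.mem_singleton]
    omega
  rw [e1, Finset.sum_pair (by omega), show d + 2 - 1 - d = 1 by omega,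
    show d + 2 - 1 - (d + 1) = 0 by omega, replicate_one, replicate_zero, ← hJ, ← hL, hLinv] at h2
  have e2 : J (w.prod ::ₘ {1}) = f w.prod := by
    rw [hf]
    rfl
  rw [e2, show d + 2 - 1 = d + 1 by omega] at h2
  have hl : (1 : ℝ) ≤ w.length := by
    exact_mod_cast List.length_pos_iff.2 hw
  have hl2 : (1 : ℝ) ≤ (w.length : ℝ) ^ 2 := one_le_pow₀ hl
  refine h2.trans ?_
  rw [mul_assoc]
  refine mul_le_mul_of_nonneg_left ?_ hC.le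
  have h3 : (1 + L (1 ::ₘ 0)) * 1 ≤ (1 + L (1 ::ₘ 0)) * (w.length : ℝ) ^ 2 :=
    mul_le_mul_of_nonneg_left hl2 (by linarith)
  linarith

end

end Run7.h913.QG
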