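import Pool.Agent.Run7.h528.NR.Lim

/-!
The degrees are bounded by the limit forms of the degrees at most `n - ν + 1`.
-/

set_option autoImplicit false
set_option linter.unusedSectionVars false

open Multiset Filter Topology

namespace Run7.h913.QG

open Pool.Agent.N110 Pool.Agent.N110.RK Run7.h528.NR

section

variable {α : Type} {n : ℕ} {t : Multiset α → ℝ}

/-- the sum of `a` and of `v` times `H` -/
def Dv (mul : α → α → α) (H : α) (a : α) : ℕ → α
  | 0 => a
  | v + 1 => mul H (Dv mul H a v)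

theorem t_D {mul : α → α → α} (hmul : ∀ a b (s : Multiset α), s.card + 1 = n →
      t (mul a b ::ₘ s) = t (a ::ₘ s) + t (b ::ₘ s)) (H a : α) (v : ℕ) (s : Multiset α)
    (hs : s.card + 1 = n) :
    t (Dv mul H a v ::ₘ s) = t (a ::ₘ s) + v * t (H ::ₘ s) := by
  induction v with
  | zero => simp [Dv]
  | succ v ih =>
    rw [Dv, hmul _ _ _ hs, ih]
    push_cast
    ring

/-- the degree of `X` is bounded by the mixed degrees; the case of large `m` -/
theorem absorb0 (hpos : ∀ s : Multiset α, s.card = n → 0 < t s) (hex : Exch n t)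
    {mul : α → α → α} (hmul : ∀ a b (s : Multiset α), s.card + 1 = n →
      t (mul a b ::ₘ s) = t (a ::ₘ s) + t (b ::ₘ s)) {H : α} {ν : ℕ} (hν0 : 0 < ν)
    (hνn : ν < n) {c ε η : ℝ} (hc : 0 < c) (hη : 0 < η) (hη2 : 2 * η ≤ 1)
    (hη3 : 8 ^ (n - 1) * (c + 1) * t (replicate n H) * (2 ^ (n - ν + 1) * max 1 c ^ n) * η ≤
      ε / 2) {b X : α} {m S : ℝ} (hm : 1 ≤ η * m) (hbH : Le n t (c * m) b H)
    (heps : ε * m ^ ν ≤ t (replicate ν b + replicate (n - ν) H)) (hS0 : 0 ≤ S)
    (hS : ∀ j, ν - 1 ≤ j → j ≤ n - 1 →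
      t (replicate j b + (replicate (n - 1 - j) H + {X})) ≤ S * m ^ j) :
    t (X ::ₘ replicate (n - 1) H) * (η ^ (n - ν) * ε) ≤
      2 * (8 ^ (n - 1) * (c + 1) * t (replicate n H)) * S := by
  classical
  have hm0 : 0 < m := by
    by_contra hcon
    have : η * m ≤ 0 := mul_nonpos_of_nonneg_of_nonpos hη.le (not_lt.1 hcon)
    linarith
  obtain ⟨v, hv⟩ : ∃ v : ℕ, v = ⌈η * m⌉₊ := ⟨_, rfl⟩
  have hv1 : η * m ≤ v := by rw [hv]; exact Nat.le_ceil _
  have hv2 : (v : ℝ) ≤ 2 * η * m := by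
    have := Nat.ceil_lt_add_one (show 0 ≤ η * m by positivity)
    rw [← hv] at this
    linarith
  have hvp : (0 : ℝ) < v := by linarith
  have hvm : (v : ℝ) ≤ m := by
    have := mul_le_mul_of_nonneg_right hη2 hm0.le
    linarith
  obtain ⟨D0, hD0⟩ : ∃ D0, D0 = Dv mul H b v := ⟨_, rfl⟩
  have hD : ∀ s : Multiset α, s.card + 1 = n → t (D0 ::ₘ s) = t (b ::ₘ s) + v * t (H ::ₘ s) := by
    intro s hs
    rw [hD0]
    exact t_D hmul H b v s hs
  obtain ⟨A, hA⟩ : ∃ A, A = t (X ::ₘ replicate (n - 1) H) := ⟨_, rfl⟩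
  obtain ⟨h, hh⟩ : ∃ h, h = t (replicate n H) := ⟨_, rfl⟩
  have hA0 : 0 < A := by rw [hA]; exact hpos _ (by rw [card_cons, card_replicate]; omega)
  have hh0 : 0 < h := by rw [hh]; exact hpos _ (card_replicate _ _)
  -- the lower bound
  have low : (η * m) ^ (n - ν) * (ε * m ^ ν) ≤ t (replicate n D0) := by
    have h1 : Le n t (1 / v) H D0 := by
      intro s hs
      rw [hD s hs, one_div, inv_mul_eq_div, le_div_iff₀ hvp]
      have := (hpos (b ::ₘ s) (by rw [card_cons]; exact hs)).le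
      linarith
    have h2 : Le n t 1 b D0 := by
      intro s hs
      rw [hD s hs, one_mul]
      have := (hpos (H ::ₘ s) (by rw [card_cons]; exact hs)).le
      have := mul_nonneg hvp.le this
      linarith
    have h3 := h1.rep (by positivity) (n - ν) (replicate ν b) (by rw [card_replicate]; omega)
    have h4 := h2.rep zero_le_one ν (replicate (n - ν) D0) (by rw [card_replicate]; omega)
    have e1 : replicate ν D0 + replicate (n - ν) D0 = replicate n D0 := by
      rw [← replicate_add]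
      congr 1
      omega
    rw [one_pow, one_mul, e1] at h4
    rw [add_comm (replicate (n - ν) D0)] at h3
    rw [add_comm (replicate (n - ν) H)] at h3
    have h5 : (1 / (v : ℝ)) ^ (n - ν) = 1 / (v : ℝ) ^ (n - ν) := by rw [one_div_pow]
    rw [h5, one_div, inv_mul_eq_div, le_div_iff₀ (by positivity)] at h3
    have h6 : (η * m) ^ (n - ν) ≤ (v : ℝ) ^ (n - ν) := pow_le_pow_left₀ (by positivity) hv1 _
    rcases le_or_gt 0 ε with hε | hε
    · calc (η * m) ^ (n - ν) * (ε * m ^ ν) ≤ (v : ℝ) ^ (n - ν) * (ε * m ^ ν) :=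
            mul_le_mul_of_nonneg_right h6 (by positivity)
        _ ≤ (v : ℝ) ^ (n - ν) * t (replicate ν b + replicate (n - ν) H) :=
            mul_le_mul_of_nonneg_left heps (by positivity)
        _ = t (replicate ν b + replicate (n - ν) H) * (v : ℝ) ^ (n - ν) := mul_comm _ _
        _ ≤ t (replicate ν b + replicate (n - ν) D0) := h3
        _ ≤ _ := h4
    · have h7 : (η * m) ^ (n - ν) * (ε * m ^ ν) ≤ 0 :=
        mul_nonpos_of_nonneg_of_nonpos (by positivity)
          (mul_nonpos_of_nonpos_of_nonneg hε.le (by positivity))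
      exact h7.trans (hpos _ (card_replicate _ _)).le
  -- the upper bound
  obtain ⟨B, hB⟩ : ∃ B, B = m ^ (n - 1) * (S + (2 * η) ^ (n - ν + 1) * max 1 c ^ n * A) :=
    ⟨_, rfl⟩
  have hmx : (0 : ℝ) < max 1 c := lt_max_of_lt_left one_pos
  have up : t (replicate (n - 1) D0 + {X}) ≤ 2 ^ (n - 1) * B := by
    refine expand hvp (fun s hs => (hD s hs).le) (n - 1) {X} B (by rw [card_singleton]; omega) ?_
    intro a ha
    have hvn : (v : ℝ) ^ (n - 1 - a) ≤ (2 * η * m) ^ (n - 1 - a) :=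
      pow_le_pow_left₀ hvp.le hv2 _
    rcases Nat.lt_or_ge a (ν - 1) with h1 | h1
    · have h2 := hbH.rep (mul_pos hc hm0).le a (replicate (n - 1 - a) H + {X})
        (by rw [card_add, card_replicate, card_singleton]; omega)
      have e1 : replicate a H + (replicate (n - 1 - a) H + {X}) = X ::ₘ replicate (n - 1) H := by
        rw [← add_assoc, ← replicate_add, show a + (n - 1 - a) = n - 1 by omega, add_comm,
          singleton_add]
      rw [e1, ← hA] at h2
      have h3 : (2 * η) ^ (n - 1 - a) ≤ (2 * η) ^ (n - ν + 1) :=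
        pow_le_pow_of_le_one (by positivity) hη2 (by omega)
      have h4 : c ^ a ≤ max 1 c ^ n := by
        calc c ^ a ≤ max 1 c ^ a := pow_le_pow_left₀ hc.le (le_max_right _ _) _
          _ ≤ max 1 c ^ n := pow_le_pow_right₀ (le_max_left _ _) (by omega)
      calc (v : ℝ) ^ (n - 1 - a) * t (replicate a b + (replicate (n - 1 - a) H + {X}))
          ≤ (2 * η * m) ^ (n - 1 - a) * ((c * m) ^ a * A) := by
            refine mul_le_mul hvn h2 ?_ (by positivity)
            exact (hpos _ (by simp only [card_add, card_replicate, card_singleton]; omega)).le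
        _ = m ^ (n - 1) * ((2 * η) ^ (n - 1 - a) * c ^ a * A) := by
            have e2 : m ^ (n - 1) = m ^ (n - 1 - a) * m ^ a := by
              rw [← pow_add]
              congr 1
              omega
            rw [e2, mul_pow (2 * η) m, mul_pow c m]
            ring
        _ ≤ m ^ (n - 1) * ((2 * η) ^ (n - ν + 1) * max 1 c ^ n * A) := by gcongr
        _ ≤ B := by
            rw [hB]
            have : 0 ≤ m ^ (n - 1) * S := by positivity
            linarith
    · have h2 := hS a h1 ha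
      have h3 : (2 * η * m) ^ (n - 1 - a) ≤ m ^ (n - 1 - a) := by
        refine pow_le_pow_left₀ (by positivity) ?_ _
        have := mul_le_mul_of_nonneg_right hη2 hm0.le
        linarith
      calc (v : ℝ) ^ (n - 1 - a) * t (replicate a b + (replicate (n - 1 - a) H + {X}))
          ≤ m ^ (n - 1 - a) * (S * m ^ a) := by
            refine mul_le_mul (hvn.trans h3) h2 ?_ (by positivity)
            exact (hpos _ (by simp only [card_add, card_replicate, card_singleton]; omega)).le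
        _ = m ^ (n - 1) * S := by
            have e2 : m ^ (n - 1) = m ^ (n - 1 - a) * m ^ a := by
              rw [← pow_add]
              congr 1
              omega
            rw [e2]
            ring
        _ ≤ B := by
            rw [hB]
            have : 0 ≤ m ^ (n - 1) * ((2 * η) ^ (n - ν + 1) * max 1 c ^ n * A) := by positivity
            linarith
  -- the degree of `D0`
  have hDH : t (D0 ::ₘ replicate (n - 1) H) ≤ (c + 1) * m * h := by
    have h1 := hbH (replicate (n - 1) H) (by rw [card_replicate]; omega)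
    have e1 : H ::ₘ replicate (n - 1) H = replicate n H := by
      rw [← replicate_succ]
      congr 1
      omega
    rw [e1, ← hh] at h1
    rw [hD _ (by rw [card_replicate]; omega), e1, ← hh]
    have h2 := mul_le_mul_of_nonneg_right hvm hh0.le
    linarith
  -- the reverse inequality
  have hr := rkt1 hpos hex D0 X (replicate (n - 1) H) 0 (by rw [card_replicate, card_zero]; omega)
  rw [card_replicate, add_zero, add_zero, add_zero, show n - 1 + 1 = n by omega, ← hA] at hr
  have e1 : X ::ₘ replicate (n - 1) D0 = replicate (n - 1) D0 + {X} := by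
    rw [add_comm, singleton_add]
  rw [e1] at hr
  have hDH0 : 0 ≤ t (D0 ::ₘ replicate (n - 1) H) :=
    (hpos _ (by rw [card_cons, card_replicate]; omega)).le
  have hB0 : 0 ≤ B := by
    rw [hB]
    positivity
  have h1 : A * ((η * m) ^ (n - ν) * (ε * m ^ ν)) ≤
      4 ^ (n - 1) * ((2 ^ (n - 1) * B) * ((c + 1) * m * h)) := by
    calc A * ((η * m) ^ (n - ν) * (ε * m ^ ν)) ≤ A * t (replicate n D0) :=
          mul_le_mul_of_nonneg_left low hA0.le
      _ ≤ _ := hr
      _ ≤ _ := by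
        refine mul_le_mul_of_nonneg_left ?_ (by positivity)
        exact mul_le_mul up hDH hDH0 (by positivity)
  have e2 : (η * m) ^ (n - ν) * (ε * m ^ ν) = m ^ n * (η ^ (n - ν) * ε) := by
    have : m ^ n = m ^ (n - ν) * m ^ ν := by
      rw [← pow_add]
      congr 1
      omega
    rw [this, mul_pow]
    ring
  have e3 : (4 : ℝ) ^ (n - 1) * ((2 ^ (n - 1) * B) * ((c + 1) * m * h)) =
      m ^ n * ((8 ^ (n - 1) * (c + 1) * h) *
        (S + (2 * η) ^ (n - ν + 1) * max 1 c ^ n * A)) := by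
    have e4 : (8 : ℝ) ^ (n - 1) = 4 ^ (n - 1) * 2 ^ (n - 1) := by
      rw [← mul_pow]
      norm_num
    have e5 : m ^ n = m * m ^ (n - 1) := by
      rw [← pow_succ']
      congr 1
      omega
    rw [hB, e4, e5]
    ring
  rw [e2, e3] at h1
  have h2 : A * (η ^ (n - ν) * ε) ≤ (8 ^ (n - 1) * (c + 1) * h) *
      (S + (2 * η) ^ (n - ν + 1) * max 1 c ^ n * A) := by
    refine le_of_mul_le_mul_left ?_ (pow_pos hm0 n)
    calc m ^ n * (A * (η ^ (n - ν) * ε)) = A * (m ^ n * (η ^ (n - ν) * ε)) := by ring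
      _ ≤ _ := h1
  have e6 : (2 * η) ^ (n - ν + 1) = 2 ^ (n - ν + 1) * η * η ^ (n - ν) := by
    rw [mul_pow, pow_succ η]
    ring
  rw [← hh] at hη3
  have h3 : (8 ^ (n - 1) * (c + 1) * h) * ((2 * η) ^ (n - ν + 1) * max 1 c ^ n * A) ≤
      ε / 2 * (η ^ (n - ν) * A) := by
    have h4 := mul_le_mul_of_nonneg_right hη3 (show 0 ≤ η ^ (n - ν) * A by positivity)
    calc _ = 8 ^ (n - 1) * (c + 1) * h * (2 ^ (n - ν + 1) * max 1 c ^ n) * η *
          (η ^ (n - ν) * A) := by rw [e6]; ring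
      _ ≤ _ := h4
  rw [← hA, ← hh]
  nlinarith

/-- the degree of `X` is bounded by the mixed degrees -/
theorem absorb (hpos : ∀ s : Multiset α, s.card = n → 0 < t s) (hex : Exch n t)
    {mul : α → α → α} (hmul : ∀ a b (s : Multiset α), s.card + 1 = n →
      t (mul a b ::ₘ s) = t (a ::ₘ s) + t (b ::ₘ s)) (H : α) {ν : ℕ} (hν0 : 0 < ν)
    (hνn : ν < n) {c ε : ℝ} (hc : 0 < c) (hε : 0 < ε) :
    ∃ C : ℝ, 0 < C ∧ ∀ (b X : α) (m S : ℝ), 0 < m → Le n t (c * m) b H →
      ε * m ^ ν ≤ t (replicate ν b + replicate (n - ν) H) → 0 ≤ S →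
      (∀ j, ν - 1 ≤ j → j ≤ n - 1 →
        t (replicate j b + (replicate (n - 1 - j) H + {X})) ≤ S * m ^ j) →
      t (X ::ₘ replicate (n - 1) H) ≤ C * S := by
  obtain ⟨h, hh⟩ : ∃ h, h = t (replicate n H) := ⟨_, rfl⟩
  have hh0 : 0 < h := by rw [hh]; exact hpos _ (card_replicate _ _)
  obtain ⟨Q, hQ⟩ : ∃ Q : ℝ, Q = 8 ^ (n - 1) * (c + 1) * h := ⟨_, rfl⟩
  have hQ0 : 0 < Q := by rw [hQ]; positivity
  obtain ⟨R, hR⟩ : ∃ R : ℝ, R = 2 ^ (n - ν + 1) * max 1 c ^ n := ⟨_, rfl⟩
  have hmx : (0 : ℝ) < max 1 c := lt_max_of_lt_left one_pos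
  have hR0 : 0 < R := by rw [hR]; positivity
  obtain ⟨η, hηd⟩ : ∃ η : ℝ, η = min (1 / 2) (ε / 2 / (Q * R)) := ⟨_, rfl⟩
  have hη0 : 0 < η := by
    rw [hηd]
    exact lt_min (by norm_num) (by positivity)
  have hη2 : 2 * η ≤ 1 := by
    have : η ≤ 1 / 2 := by rw [hηd]; exact min_le_left _ _
    linarith
  have hη3 : Q * R * η ≤ ε / 2 := by
    have h1 : η ≤ ε / 2 / (Q * R) := by rw [hηd]; exact min_le_right _ _
    rw [le_div_iff₀ (by positivity)] at h1
    linarith
  refine ⟨2 * Q / (η ^ (n - ν) * ε), by positivity, fun b X m S hm hbH heps hS0 hS => ?_⟩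
  obtain ⟨N, hN⟩ := exists_nat_ge (1 / (η * m))
  have hbN : ∀ s : Multiset α, s.card + 1 = n →
      t (Dv mul b b N ::ₘ s) = (N + 1) * t (b ::ₘ s) := by
    intro s hs
    rw [t_D hmul b b N s hs]
    ring
  have hN1 : (0 : ℝ) < N + 1 := by positivity
  have key := absorb0 hpos hex hmul (H := H) hν0 hνn (c := c) (ε := ε) (η := η) hc hη0 hη2
    (by rw [← hh, ← hQ, ← hR]; exact hη3) (b := Dv mul b b N) (X := X)
    (m := (N + 1) * m) (S := S) ?_ ?_ ?_ hS0 ?_
  · rw [← hh, ← hQ] at key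
    rw [div_mul_eq_mul_div, le_div_iff₀ (by positivity)]
    exact key
  · have h1 : 1 ≤ N * (η * m) := by
      rwa [div_le_iff₀ (by positivity)] at hN
    have h2 : 0 < η * m := by positivity
    nlinarith
  · intro s hs
    rw [hbN s hs]
    have h1 := mul_le_mul_of_nonneg_left (hbH s hs) hN1.le
    calc _ ≤ _ := h1
      _ = _ := by ring
  · have h1 : Le n t (1 / (N + 1)) b (Dv mul b b N) := by
      intro s hs
      rw [hbN s hs]
      apply le_of_eq
      field_simp
    have h2 := h1.rep (by positivity) ν (replicate (n - ν) H) (by rw [card_replicate]; omega)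
    rw [one_div_pow, one_div, inv_mul_eq_div, le_div_iff₀ (by positivity)] at h2
    refine le_trans ?_ h2
    rw [mul_pow]
    have h3 := mul_le_mul_of_nonneg_right heps (show 0 ≤ ((N : ℝ) + 1) ^ ν by positivity)
    calc ε * (((N : ℝ) + 1) ^ ν * m ^ ν) = ε * m ^ ν * ((N : ℝ) + 1) ^ ν := by ring
      _ ≤ _ := h3
  · intro j h1 h2
    have h3 : Le n t (N + 1) (Dv mul b b N) b := fun s hs => (hbN s hs).le
    have h4 := h3.rep hN1.le j (replicate (n - 1 - j) H + {X})
      (by simp only [card_add, card_replicate, card_singleton]; omega)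
    have h5 := mul_le_mul_of_nonneg_left (hS j h1 h2) (show 0 ≤ ((N : ℝ) + 1) ^ j by positivity)
    rw [mul_pow]
    calc _ ≤ _ := h4
      _ ≤ _ := h5
      _ = _ := by ring

end

section

variable {α 𝒜 G : Type} [Preorder 𝒜] [Group G] {n : ℕ} {t : Multiset α → ℝ} {φ : G → α → α}
  {mul : α → α → α} {H : α} {m : ℕ → ℝ} {M : 𝒜 → ℕ → α} {ν : ℕ} {c ε : ℝ} {𝒰 : Ultrafilter ℕ}

/-- **The degrees are bounded by the limit forms.** -/
theorem top_le (h : GSys n t φ mul H m M ν c ε) (h𝒰 : (𝒰 : Filter ℕ) ≤ atTop) (hν0 : 0 < ν)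
    (hνn : ν < n) : ∃ C : ℝ, 0 < C ∧ ∀ g : G, t (φ g H ::ₘ replicate (n - 1) H) ≤
      C * (1 + ∑ j ∈ Finset.Icc (ν - 1) (n - 1),
        JG n t φ H m M 𝒰 j (g ::ₘ replicate (n - 1 - j) 1)) := by
  classical
  obtain ⟨a0, ha0⟩ := h.eps
  obtain ⟨C, hC, hab⟩ := absorb h.pos h.ex h.mul_t H hν0 hνn h.hc h.hε
  refine ⟨C, hC, fun g => ?_⟩
  obtain ⟨S, hS⟩ : ∃ S, S = 1 + ∑ j ∈ Finset.Icc (ν - 1) (n - 1),
        JG n t φ H m M 𝒰 j (g ::ₘ replicate (n - 1 - j) 1) := ⟨_, rfl⟩
  rw [← hS]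
  have ev : ∀ᶠ q in (𝒰 : Filter ℕ), ∀ j ∈ Finset.Icc (ν - 1) (n - 1),
      TqG n t φ H m M j a0 q (g ::ₘ replicate (n - 1 - j) 1) ≤ S := by
    rw [Filter.eventually_all_finset]
    intro j hj
    have hj' := Finset.mem_Icc.1 hj
    have hjn : j ≤ n := by omega
    have h1 := (h.K_spec h𝒰 hjn a0 (g ::ₘ replicate (n - 1 - j) 1)).1
    have h2 : KG n t φ H m M 𝒰 j a0 (g ::ₘ replicate (n - 1 - j) 1) < S := by
      have h3 := h.J_le h𝒰 hjn a0 (g ::ₘ replicate (n - 1 - j) 1)
      have h4 : JG n t φ H m M 𝒰 j (g ::ₘ replicate (n - 1 - j) 1) ≤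
          ∑ j ∈ Finset.Icc (ν - 1) (n - 1),
            JG n t φ H m M 𝒰 j (g ::ₘ replicate (n - 1 - j) 1) := by
        refine Finset.single_le_sum
          (f := fun j => JG n t φ H m M 𝒰 j (g ::ₘ replicate (n - 1 - j) 1)) (fun i hi => ?_) hj
        have hi' := Finset.mem_Icc.1 hi
        exact ((h.K_spec h𝒰 (show i ≤ n by omega) a0 _).2.1).trans
          (h.J_le h𝒰 (show i ≤ n by omega) a0 _)
      linarith
    exact (h1.eventually_lt_const h2).mono fun q hq => hq.le
  have hNB : (𝒰 : Filter ℕ).NeBot := inferInstance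
  obtain ⟨q, hq1, hq2, hq3⟩ := ((ha0.filter_mono h𝒰).and (((h.M_le a0).filter_mono h𝒰).and ev)).exists
  have hm := h.m_pos q
  have hS0 : 0 ≤ S := by
    have h1 : ν ∈ Finset.Icc (ν - 1) (n - 1) := Finset.mem_Icc.2 ⟨by omega, by omega⟩
    exact (h.Tq_nonneg (by omega) a0 q _).trans (hq3 ν h1)
  refine hab (M a0 q) (φ g H) (m q) S hm hq2 hq1 hS0 fun j h1 h2 => ?_
  have h3 := hq3 j (Finset.mem_Icc.2 ⟨h1, h2⟩)
  unfold TqG at h3
  rw [if_pos (by rw [card_cons, card_replicate]; omega), div_le_iff₀ (by positivity), map_cons,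
    map_replicate, h.φ_one, id] at h3
  have e1 : replicate (n - 1 - j) H + {φ g H} = φ g H ::ₘ replicate (n - 1 - j) H := by
    rw [add_comm, singleton_add]
  rw [e1]
  exact h3

end

end Run7.h913.QG
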